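import Pool.Agent.H60.CM.Basic

/-!
# An odd Killing function which is nonpositive on the half circle has a sign (row LPP)
-/

set_option autoImplicit false

open Set Function MeasureTheory Filter Topology
open scoped Manifold ContDiff Matrix

namespace Pool.Agent.H98.CM

open Pool.Agent.H60.CM

theorem pf_LPP (h1 : T_PHI) (h2 : T_LPQ) (h3 : T_LOW) (h4 : T_REG) : T_LPP := by
  intro Y hst c0 c1 c2 hbd
  by_contra hcon
  rw [not_or] at hcon
  obtain ⟨hn1, hn2⟩ := hcon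
  rw [not_forall] at hn1 hn2
  obtain ⟨p, hn1⟩ := hn1
  obtain ⟨p', hn2⟩ := hn2
  rw [not_forall] at hn1 hn2
  obtain ⟨hp, hp2⟩ := hn1
  obtain ⟨hp', hp2'⟩ := hn2
  rw [not_lt] at hp2
  rw [not_le] at hp2'
  obtain ⟨q, hq, hq0, hqd⟩ := h4 Y.toDat ![0, c1, 0] ![c2, 0, c0] (Y.A ∩ Y.int)
    (Y.half.isOpen.inter Y.toDat.int_open) Set.inter_subset_right Y.conn ⟨p', hp', hp2'⟩
    ⟨p, hp, hp2⟩
  obtain ⟨Φ, hΦ⟩ := h1
  obtain ⟨η, hη, hη0, c, ε₀, hc, hε₀, hlow⟩ := h3 Y (oddk Y c0 c1 c2)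
    (Y.toDat.smkf ![0, c1, 0] ![c2, 0, c0]) q hq hq0 hqd Φ hΦ
  obtain ⟨C, hC⟩ := h2 Y hst c0 c1 c2 hbd Φ hΦ η hη hη0
  have hK : 0 < c / (2 * (|C| + 1)) := by positivity
  obtain ⟨ε, hε⟩ : ∃ ε : ℝ, ε = min (min 1 (ε₀ / 2)) ((c / (2 * (|C| + 1))) ^ 2) := ⟨_, rfl⟩
  have e0 : 0 < ε := by
    rw [hε]
    exact lt_min (lt_min one_pos (by linarith)) (by positivity)
  have e1 : ε ≤ 1 := by
    rw [hε]
    exact (min_le_left _ _).trans (min_le_left _ _)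
  have e2 : ε < ε₀ := by
    have : ε ≤ ε₀ / 2 := by
      rw [hε]
      exact (min_le_left _ _).trans (min_le_right _ _)
    linarith
  have e3 : Real.sqrt ε ≤ c / (2 * (|C| + 1)) := by
    rw [← Real.sqrt_sq hK.le]
    refine Real.sqrt_le_sqrt ?_
    rw [hε]
    exact min_le_right _ _
  have h5 := (hlow ε e0 e2).trans (hC ε e0 e1)
  have h6 : C * Real.sqrt ε ≤ |C| * (c / (2 * (|C| + 1))) :=
    (mul_le_mul_of_nonneg_right (le_abs_self C) (Real.sqrt_nonneg _)).trans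
      (mul_le_mul_of_nonneg_left e3 (abs_nonneg _))
  have h7 : |C| * (c / (2 * (|C| + 1))) < c := by
    rw [mul_div_assoc', div_lt_iff₀ (by positivity)]
    nlinarith [abs_nonneg C]
  linarith

end Pool.Agent.H98.CM
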